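import Pool.Agent.H.MP_1dd1a8_co.Des

set_option autoImplicit false

namespace Pool.Agent.Results.MP_1dd1a8_co.No

/-- cyclic design: a translation invariant multiset of `k`-subsets covering each pair `lam` times -/
def IsCyclicDesign (v k lam : ℕ) (D : Multiset (Finset (ZMod v))) : Prop :=
  (∀ B ∈ D, B.card = k) ∧
  (∀ x y : ZMod v, x ≠ y → (D.filter fun B => x ∈ B ∧ y ∈ B).card = lam) ∧
  ∀ (t : ZMod v) (B : Finset (ZMod v)), D.count (B.image (· + t)) = D.count B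

/-- pairwise disjoint chosen blocks, as many from each translation orbit as its multiplicity -/
def HasDisjointReps (v : ℕ) (D : Multiset (Finset (ZMod v))) : Prop :=
  ∃ (n : ℕ) (R : Fin n → Finset (ZMod v)), (Pairwise fun i j => Disjoint (R i) (R j)) ∧
    ∀ B : Finset (ZMod v), {i | ∃ t, R i = B.image (· + t)}.ncard = D.count B

theorem result (v₀ : ℕ) : ∃ v, v₀ < v ∧ ∃ D : Multiset (Finset (ZMod v)),
    IsCyclicDesign v 3 2 D ∧ ¬ HasDisjointReps v D := by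
  obtain ⟨v, hv⟩ : ∃ v, v = 9 * v₀ ^ 2 + 9 * v₀ + 3 := ⟨_, rfl⟩
  have : NeZero v := ⟨by omega⟩
  have h0 : (9 * (v₀ : ZMod v) ^ 2 + 9 * v₀ + 3) = 0 := by
    have := ZMod.natCast_self v
    rw [hv] at this ⊢
    exact_mod_cast this
  have hu : (3 * (v₀ : ZMod v) + 1) ^ 2 + (3 * (v₀ : ZMod v) + 1) + 1 = 0 := by
    linear_combination h0
  have hw : (3 * (v₀ : ZMod v) ^ 2 + 3 * v₀ + 1) ≠ 0 := by
    intro h
    have h1 : ((3 * v₀ ^ 2 + 3 * v₀ + 1 : ℕ) : ZMod v) = 0 := by exact_mod_cast h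
    have := Nat.le_of_dvd (by omega) ((ZMod.natCast_eq_zero_iff _ _).mp h1)
    omega
  have hc : ∀ B ∈ Pool.Agent.H.MP_1dd1a8_co.des (3 * (v₀ : ZMod v) + 1), B.card = 3 := by
    intro B hB
    obtain ⟨p, hp, rfl⟩ := Pool.Agent.H.MP_1dd1a8_co.des_mem _ B hB
    exact Pool.Agent.H.MP_1dd1a8_co.f_card _ hu p hp
  refine ⟨v, by omega, Pool.Agent.H.MP_1dd1a8_co.des (3 * (v₀ : ZMod v) + 1),
    ⟨hc, Pool.Agent.H.MP_1dd1a8_co.des_pair _ hu, Pool.Agent.H.MP_1dd1a8_co.des_shift _ hu⟩, ?_⟩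
  rintro ⟨n, R, h1, h2⟩
  refine Pool.Agent.H.MP_1dd1a8_co.no_reps _ _ hw (by linear_combination h0) hc
    (Pool.Agent.H.MP_1dd1a8_co.des_pair _ hu)
    (Pool.Agent.H.MP_1dd1a8_co.des_short _ _ hu hw (by linear_combination (v₀ : ZMod v) * h0))
    n R h1 fun B => ?_
  rw [← h2, ← Set.ncard_coe_finset]
  simp

end Pool.Agent.Results.MP_1dd1a8_co.No
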